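import Pool.Agent.H58.JU.Targets

/-!
MP_6a7a6f_gt, board jun_modules, row OP0: the standard line in the projective plane over `O`.
-/

namespace Pool.Agent.H17.JU

noncomputable section

open Pool.Agent.H58.JU Pool.Agent.H59 Pool.Agent.H48.FR Pool.Agent.H58.FL
open Pool.Agent.H59.OP
open scoped RealInnerProductSpace Quaternion

variable {O : Type} [NormedAddCommGroup O] [InnerProductSpace ℝ O] [CA O]

lemma ov_tf (A B : P2 O) : ov A B = tf A B := cos_dd_sq A B

/-- the projection to the line, not normalized -/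
def qv (A : P2 O) : WithLp 2 (ℝ × O) := WithLp.toLp 2 (A.a - A.b, (2 : ℝ) • A.x)

lemma inner_qv (A B : P2 O) :
    ⟪qv A, qv B⟫ = (A.a - A.b) * (B.a - B.b) + 4 * ⟪A.x, B.x⟫ := by
  rw [WithLp.prod_inner_apply]
  simp only [qv, inner_smul_left, inner_smul_right]
  simp
  ring

lemma norm_qv_sq (A : P2 O) : ‖qv A‖ ^ 2 = (A.a + A.b) ^ 2 := by
  rw [← real_inner_self_eq_norm_sq, inner_qv, real_inner_self_eq_norm_sq, A.nx]
  ring

lemma norm_qv (A : P2 O) : ‖qv A‖ = A.a + A.b := by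
  have h := A.nonneg
  exact (sq_eq_sq₀ (norm_nonneg _) (by linarith)).1 (norm_qv_sq A)

/-- the direction of the projection to the line -/
def wv (A : P2 O) : WithLp 2 (ℝ × O) :=
  if 0 < A.a + A.b then (A.a + A.b)⁻¹ • qv A else WithLp.toLp 2 (1, 0)

lemma norm_wv (A : P2 O) : ‖wv A‖ = 1 := by
  unfold wv
  split_ifs with h
  · rw [norm_smul, norm_qv, Real.norm_eq_abs, abs_of_pos (inv_pos.2 h), inv_mul_cancel₀ h.ne']
  · have h1 : ‖(WithLp.toLp 2 ((1 : ℝ), (0 : O)) : WithLp 2 (ℝ × O))‖ ^ 2 = 1 := by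
      rw [← real_inner_self_eq_norm_sq, WithLp.prod_inner_apply]
      simp
    have h2 := norm_nonneg (WithLp.toLp 2 ((1 : ℝ), (0 : O)) : WithLp 2 (ℝ × O))
    nlinarith

/-- the remaining part of the overlap -/
def Kv (A B : P2 O) : ℝ := A.c * B.c + 2 * ⟪A.y, B.y⟫ + 2 * ⟪A.z, B.z⟫

omit [CA O] in
lemma sum_inner {N : ℕ} (t : Fin N → ℝ) (v : Fin N → O) :
    ∑ i, ∑ j, t i * t j * ⟪v i, v j⟫ = ‖∑ i, t i • v i‖ ^ 2 := by
  rw [← real_inner_self_eq_norm_sq, sum_inner_sum t v]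
where
  sum_inner_sum (t : Fin N → ℝ) (v : Fin N → O) :
      ⟪∑ i, t i • v i, ∑ i, t i • v i⟫ = ∑ i, ∑ j, t i * t j * ⟪v i, v j⟫ := by
    rw [_root_.sum_inner]
    refine Finset.sum_congr rfl fun i _ => ?_
    rw [inner_sum]
    refine Finset.sum_congr rfl fun j _ => ?_
    rw [inner_smul_left, inner_smul_right]
    simp
    ring

lemma Kv_pos (N : ℕ) (t : Fin N → ℝ) (x : Fin N → P2 O) :
    0 ≤ ∑ i, ∑ j, t i * t j * Kv (x i) (x j) := by
  have h1 : ∑ i, ∑ j, t i * t j * Kv (x i) (x j) =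
      (∑ i, t i * (x i).c) ^ 2 + 2 * ∑ i, ∑ j, t i * t j * ⟪(x i).y, (x j).y⟫ +
        2 * ∑ i, ∑ j, t i * t j * ⟪(x i).z, (x j).z⟫ := by
    rw [sq, Finset.sum_mul_sum, Finset.mul_sum, Finset.mul_sum, ← Finset.sum_add_distrib,
      ← Finset.sum_add_distrib]
    refine Finset.sum_congr rfl fun i _ => ?_
    rw [Finset.mul_sum, Finset.mul_sum, ← Finset.sum_add_distrib, ← Finset.sum_add_distrib]
    refine Finset.sum_congr rfl fun j _ => ?_
    unfold Kv
    ring
  rw [h1, sum_inner, sum_inner]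
  positivity

lemma zero_of_p {A : P2 O} (h : ¬ 0 < A.a + A.b) : A.a = 0 ∧ A.b = 0 ∧ A.x = 0 ∧ A.y = 0 ∧
    A.z = 0 ∧ A.c = 1 := by
  have h1 := A.nonneg
  have ha : A.a = 0 := by linarith
  have hb : A.b = 0 := by linarith
  have hx := A.nx
  have hy := A.ny
  have hz := A.nz
  rw [ha] at hx hy
  rw [hb] at hz
  rw [zero_mul, sq_eq_zero_iff, norm_eq_zero] at hx hy hz
  exact ⟨ha, hb, hx, hy, hz, by linarith [A.tr]⟩

lemma dec_v (A B : P2 O) : ov A B =
    (A.a + A.b) * (B.a + B.b) * ((1 + ⟪wv A, wv B⟫) / 2) + Kv A B := by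
  rw [ov_tf]
  by_cases hA : 0 < A.a + A.b
  · by_cases hB : 0 < B.a + B.b
    · rw [wv, wv, if_pos hA, if_pos hB, inner_smul_left, inner_smul_right, inner_qv, tf, Kv]
      simp only [conj_trivial]
      field_simp
      ring
    · obtain ⟨ha, hb, hx, hy, hz, hc⟩ := zero_of_p hB
      simp [tf, Kv, ha, hb, hx, hy, hz, hc]
  · obtain ⟨ha, hb, hx, hy, hz, hc⟩ := zero_of_p hA
    simp [tf, Kv, ha, hb, hx, hy, hz, hc]

/-- a point of the line -/
def lp (a b : ℝ) (x : O) (h : a + b = 1) (hx : ‖x‖ ^ 2 = a * b) : P2 O :=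
  mkP a b 0 x 0 0 (by rw [add_zero, h]) hx (by simp) (by simp) (by simp) (by simp) (by simp)

/-- the point outside -/
def ep (O : Type) [NormedAddCommGroup O] [InnerProductSpace ℝ O] [CA O] : P2 O :=
  mkP 0 0 1 0 0 0 (by norm_num) (by simp) (by simp) (by simp) (by simp) (by simp) (by simp)

lemma ov_ep (u : P2 O) : ov (ep O) u = 1 - (u.a + u.b) := by
  rw [ov_tf]
  simp only [tf, ep, mkP, inner_zero_left]
  linarith [u.tr]

lemma sur_v (v : WithLp 2 (ℝ × O)) (hv : ‖v‖ = 1) :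
    ∃ y : P2 O, y.a + y.b = 1 ∧ wv y = v := by
  have h1 : v.fst * v.fst + ‖v.snd‖ ^ 2 = 1 := by
    have h2 : ‖v‖ ^ 2 = v.fst * v.fst + ‖v.snd‖ ^ 2 := by
      rw [← real_inner_self_eq_norm_sq, WithLp.prod_inner_apply, ← real_inner_self_eq_norm_sq]
      rfl
    rw [← h2, hv]
    norm_num
  refine ⟨lp ((1 + v.fst) / 2) ((1 - v.fst) / 2) ((2 : ℝ)⁻¹ • v.snd) (by ring) ?_, ?_, ?_⟩
  · rw [norm_smul, mul_pow]
    norm_num
    linarith
  · simp only [lp, mkP]
    ring
  · have h3 : (lp ((1 + v.fst) / 2) ((1 - v.fst) / 2) ((2 : ℝ)⁻¹ • v.snd) (by ring) (by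
        rw [norm_smul, mul_pow]
        norm_num
        linarith) : P2 O).a + (lp ((1 + v.fst) / 2) ((1 - v.fst) / 2) ((2 : ℝ)⁻¹ • v.snd)
        (by ring) (by
        rw [norm_smul, mul_pow]
        norm_num
        linarith) : P2 O).b = 1 := by
      simp only [lp, mkP]
      ring
    rw [wv, h3, if_pos one_pos, inv_one, one_smul, qv]
    simp only [lp, mkP]
    have h4 : (1 + v.fst) / 2 - (1 - v.fst) / 2 = v.fst := by ring
    rw [h4, smul_smul, mul_inv_cancel₀ (by norm_num), one_smul]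
    rfl

/-- the geodesic through `A` which is orthogonal to the line -/
def gm (A : P2 O) (h0 : 0 < A.a + A.b) (h1 : 0 < A.c) (φ : ℝ) : P2 O :=
  mkP (Real.cos φ ^ 2 * (A.a / (A.a + A.b))) (Real.cos φ ^ 2 * (A.b / (A.a + A.b)))
    (Real.sin φ ^ 2) ((Real.cos φ ^ 2 / (A.a + A.b)) • A.x)
    ((Real.sin φ * Real.cos φ / Real.sqrt ((A.a + A.b) * A.c)) • A.y)
    ((Real.sin φ * Real.cos φ / Real.sqrt ((A.a + A.b) * A.c)) • A.z)
    (by
      have h2 := Real.sin_sq_add_cos_sq φ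
      field_simp
      nlinarith)
    (by
      rw [norm_smul, mul_pow, A.nx, Real.norm_eq_abs, sq_abs]
      field_simp)
    (by
      rw [norm_smul, mul_pow, A.ny, Real.norm_eq_abs, sq_abs, div_pow,
        Real.sq_sqrt (mul_pos h0 h1).le]
      field_simp)
    (by
      rw [norm_smul, mul_pow, A.nz, Real.norm_eq_abs, sq_abs, div_pow,
        Real.sq_sqrt (mul_pos h0 h1).le]
      field_simp)
    (by
      rw [cj_smul, smul_mm, mm_smul, A.yz, smul_smul, smul_smul, smul_smul]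
      congr 1
      have h2 := Real.sq_sqrt (mul_pos h0 h1).le
      have h3 : Real.sqrt ((A.a + A.b) * A.c) ≠ 0 := (Real.sqrt_pos.2 (mul_pos h0 h1)).ne'
      field_simp
      rw [h2]
      ring)
    (by
      rw [smul_mm, mm_smul, A.xz, smul_smul, smul_smul, smul_smul]
      congr 1
      field_simp)
    (by
      rw [cj_smul, smul_mm, mm_smul, A.xy, smul_smul, smul_smul, smul_smul]
      congr 1
      field_simp)

lemma nor_v (A : P2 O) (h0 : 0 < A.a + A.b) (h1 : A.a + A.b < 1) :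
    ∃ (y z : P2 O) (h : P2 O → ℝ) (θ : ℝ) (γ : ℝ → P2 O),
    y.a + y.b = 1 ∧ γ θ = A ∧ Real.cos θ ^ 2 = A.a + A.b ∧ (∀ u : P2 O, ov z u ≤ 1 - (u.a + u.b)) ∧
    ∀ φ u, ov (γ φ) u = Real.cos φ ^ 2 * ov y u + Real.sin φ ^ 2 * ov z u +
      2 * (Real.sin φ * Real.cos φ) * h u := by
  have hc : 0 < A.c := by linarith [A.tr]
  have hcos : Real.cos (Real.arccos (Real.sqrt (A.a + A.b))) = Real.sqrt (A.a + A.b) :=
    Real.cos_arccos (by linarith [Real.sqrt_nonneg (A.a + A.b)])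
      (Real.sqrt_le_one.2 h1.le)
  have hcos2 : Real.cos (Real.arccos (Real.sqrt (A.a + A.b))) ^ 2 = A.a + A.b := by
    rw [hcos, Real.sq_sqrt h0.le]
  have hsin2 : Real.sin (Real.arccos (Real.sqrt (A.a + A.b))) ^ 2 = A.c := by
    rw [Real.sin_sq, hcos2]
    linarith [A.tr]
  have hsin : Real.sin (Real.arccos (Real.sqrt (A.a + A.b))) = Real.sqrt A.c := by
    rw [← hsin2, Real.sqrt_sq (Real.sin_nonneg_of_nonneg_of_le_pi (Real.arccos_nonneg _)
      (Real.arccos_le_pi _))]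
  refine ⟨lp (A.a / (A.a + A.b)) (A.b / (A.a + A.b)) ((A.a + A.b)⁻¹ • A.x) (by field_simp)
    (by rw [norm_smul, mul_pow, A.nx, Real.norm_eq_abs, sq_abs]; field_simp), ep O,
    fun u => ⟪(Real.sqrt ((A.a + A.b) * A.c))⁻¹ • A.y, u.y⟫ +
      ⟪(Real.sqrt ((A.a + A.b) * A.c))⁻¹ • A.z, u.z⟫,
    Real.arccos (Real.sqrt (A.a + A.b)), gm A h0 hc, ?_, ?_, hcos2, fun u => (ov_ep u).le, ?_⟩
  · simp only [lp, mkP]
    field_simp
  · have h5 : Real.sqrt A.c * Real.sqrt (A.a + A.b) / Real.sqrt ((A.a + A.b) * A.c) = 1 := by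
      rw [Real.sqrt_mul h0.le, mul_comm (Real.sqrt A.c)]
      exact div_self (mul_pos (Real.sqrt_pos.2 h0) (Real.sqrt_pos.2 hc)).ne'
    apply P2.ext
    · simp only [gm, mkP, hcos2]
      field_simp
    · simp only [gm, mkP, hcos2]
      field_simp
    · simp only [gm, mkP, hsin2]
    · simp only [gm, mkP, hcos2]
      rw [div_self h0.ne', one_smul]
    · simp only [gm, mkP, hcos, hsin, h5, one_smul]
    · simp only [gm, mkP, hcos, hsin, h5, one_smul]
  · intro φ u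
    rw [ov_ep, ov_tf, ov_tf]
    simp only [tf, gm, lp, mkP, inner_smul_left, inner_zero_left, conj_trivial]
    have h6 : u.c = 1 - (u.a + u.b) := by linarith [u.tr]
    rw [h6]
    ring

theorem pf_OP0 : T_OP0 := by
  intro O _ _ _ B hB
  exact ⟨{
    p := fun A => A.a + A.b
    w := wv
    K := Kv
    p_mem := fun A => by
      have h := A.nonneg
      have h1 := A.tr
      constructor <;> linarith
    norm_w := norm_wv
    K_comm := fun A B => by
      unfold Kv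
      rw [real_inner_comm B.y, real_inner_comm B.z, mul_comm A.c]
    K_pos := Kv_pos
    dec := dec_v
    p_left := by simp [Pool.Agent.H59.OP.bp]
    p_right := by linarith [B.tr]
    sur := sur_v
    orth := fun A hA u => by
      have h1 : ¬ 0 < A.a + A.b := by
        have h2 : A.a + A.b = 0 := hA
        linarith
      obtain ⟨ha, hb, hx, hy, hz, hc⟩ := zero_of_p h1
      rw [ov_tf]
      simp only [tf, ha, hb, hx, hy, hz, hc, inner_zero_left]
      linarith [u.tr]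
    nor := fun A h0 h1 => nor_v A h0 h1 }⟩

end

end Pool.Agent.H17.JU
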