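import Pool.Agent.H58.JU.Targets

/-!
MP_6a7a6f_gt, board jun_modules, row OPL: lines in the projective plane over `O`.
-/

namespace Pool.Agent.H17.JU

noncomputable section

open Pool.Agent.H58.JU Pool.Agent.H59 Pool.Agent.H48.FR Pool.Agent.H58.FL
open Pool.Agent.H59.OP
open scoped RealInnerProductSpace Quaternion

theorem pf_OPL (hOPW : T_OPW) (hSUJ : T_SUJ) (hLTR : T_LTR) (hOP0 : T_OP0) : T_OPL := by
  intro O _ _ _ _ c c'
  obtain ⟨φ, h1, h2, h3⟩ := hOPW O c c'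
  have h4 : ∀ x y : P2 O, dist (φ x) (φ y) = dist x y := by
    intro x y
    rw [Pool.Agent.H59.OP.dist_def, Pool.Agent.H59.OP.dist_def, dd, dd, h1]
  refine hLTR (P2 O) (WithLp 2 (ℝ × O)) φ h4 (hSUJ (P2 O) φ h4) c c' ?_
  rw [h2]
  exact hOP0 O (φ c') h3

end

end Pool.Agent.H17.JU
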