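import Pool.Agent.H58.JU.Targets

/-!
MP_6a7a6f_gt, board jun_modules, row OPO: two open sets of the projective plane over `O`.
-/

namespace Pool.Agent.H17.JU.Opo

noncomputable section

open Pool.Agent.H58.JU Pool.Agent.H59 Pool.Agent.H48.FR Pool.Agent.H58.FL
open Pool.Agent.H59.OP
open scoped RealInnerProductSpace Quaternion unitInterval

variable {O : Type} [NormedAddCommGroup O] [InnerProductSpace ℝ O] [CA O]

/-- the first open set -/
def O1 (O : Type) [NormedAddCommGroup O] [InnerProductSpace ℝ O] [CA O] : Set (P2 O) :=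
  {A | A.b + A.c ≠ 0}

/-- the second open set -/
def O2 (O : Type) [NormedAddCommGroup O] [InnerProductSpace ℝ O] [CA O] : Set (P2 O) :=
  {A | A.a ≠ 0}

lemma pos1 (A : O1 O) (s : ℝ) : 0 < s ^ 2 * A.1.a + A.1.b + A.1.c := by
  have h := A.1.nonneg
  have h1 : A.1.b + A.1.c ≠ 0 := A.2
  have h2 : 0 < A.1.b + A.1.c := lt_of_le_of_ne (by linarith) h1.symm
  have h3 : 0 ≤ s ^ 2 * A.1.a := mul_nonneg (sq_nonneg s) h.1
  linarith

lemma pos2 (A : O2 O) (s : ℝ) : 0 < A.1.a + s ^ 2 * (A.1.b + A.1.c) := by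
  have h := A.1.nonneg
  have h1 : A.1.a ≠ 0 := A.2
  have h2 : 0 < A.1.a := lt_of_le_of_ne h.1 h1.symm
  have h3 : 0 ≤ s ^ 2 * (A.1.b + A.1.c) := mul_nonneg (sq_nonneg s) (by linarith)
  linarith

/-- scaling of the first coordinate -/
def sc1 (s : ℝ) (A : O1 O) : P2 O :=
  mkP (s ^ 2 * A.1.a / (s ^ 2 * A.1.a + A.1.b + A.1.c)) (A.1.b / (s ^ 2 * A.1.a + A.1.b + A.1.c))
    (A.1.c / (s ^ 2 * A.1.a + A.1.b + A.1.c)) ((s / (s ^ 2 * A.1.a + A.1.b + A.1.c)) • A.1.x)
    ((s / (s ^ 2 * A.1.a + A.1.b + A.1.c)) • A.1.y)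
    ((1 / (s ^ 2 * A.1.a + A.1.b + A.1.c)) • A.1.z)
    (by
      have h := (pos1 A s).ne'
      rw [← add_div, ← add_div, div_self h])
    (by
      have h := (pos1 A s).ne'
      rw [norm_smul, mul_pow, A.1.nx, Real.norm_eq_abs, sq_abs]
      field_simp)
    (by
      have h := (pos1 A s).ne'
      rw [norm_smul, mul_pow, A.1.ny, Real.norm_eq_abs, sq_abs]
      field_simp)
    (by
      have h := (pos1 A s).ne'
      rw [norm_smul, mul_pow, A.1.nz, Real.norm_eq_abs, sq_abs]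
      field_simp)
    (by
      have h := (pos1 A s).ne'
      rw [cj_smul, smul_mm, mm_smul, A.1.yz, smul_smul, smul_smul, smul_smul]
      congr 1
      field_simp)
    (by
      have h := (pos1 A s).ne'
      rw [smul_mm, mm_smul, A.1.xz, smul_smul, smul_smul, smul_smul]
      congr 1
      field_simp)
    (by
      have h := (pos1 A s).ne'
      rw [cj_smul, smul_mm, mm_smul, A.1.xy, smul_smul, smul_smul, smul_smul]
      congr 1
      field_simp)

/-- scaling of the last two coordinates -/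
def sc2 (s : ℝ) (A : O2 O) : P2 O :=
  mkP (A.1.a / (A.1.a + s ^ 2 * (A.1.b + A.1.c)))
    (s ^ 2 * A.1.b / (A.1.a + s ^ 2 * (A.1.b + A.1.c)))
    (s ^ 2 * A.1.c / (A.1.a + s ^ 2 * (A.1.b + A.1.c)))
    ((s / (A.1.a + s ^ 2 * (A.1.b + A.1.c))) • A.1.x)
    ((s / (A.1.a + s ^ 2 * (A.1.b + A.1.c))) • A.1.y)
    ((s ^ 2 / (A.1.a + s ^ 2 * (A.1.b + A.1.c))) • A.1.z)
    (by
      have h := (pos2 A s).ne'
      rw [← add_div, ← add_div, add_assoc, ← mul_add, div_self h])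
    (by
      have h := (pos2 A s).ne'
      rw [norm_smul, mul_pow, A.1.nx, Real.norm_eq_abs, sq_abs]
      field_simp)
    (by
      have h := (pos2 A s).ne'
      rw [norm_smul, mul_pow, A.1.ny, Real.norm_eq_abs, sq_abs]
      field_simp)
    (by
      have h := (pos2 A s).ne'
      rw [norm_smul, mul_pow, A.1.nz, Real.norm_eq_abs, sq_abs]
      field_simp)
    (by
      have h := (pos2 A s).ne'
      rw [cj_smul, smul_mm, mm_smul, A.1.yz, smul_smul, smul_smul, smul_smul]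
      congr 1
      field_simp)
    (by
      have h := (pos2 A s).ne'
      rw [smul_mm, mm_smul, A.1.xz, smul_smul, smul_smul, smul_smul]
      congr 1
      field_simp)
    (by
      have h := (pos2 A s).ne'
      rw [cj_smul, smul_mm, mm_smul, A.1.xy, smul_smul, smul_smul, smul_smul]
      congr 1
      field_simp)

lemma sc1_one (A : O1 O) : sc1 1 A = A.1 := by
  have h : A.1.a + A.1.b + A.1.c = 1 := A.1.tr
  apply P2.ext <;> simp only [sc1, mkP, one_pow, one_mul, h, div_one, one_smul]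

lemma sc2_one (A : O2 O) : sc2 1 A = A.1 := by
  have h : A.1.a + (A.1.b + A.1.c) = 1 := by
    rw [← add_assoc]
    exact A.1.tr
  apply P2.ext <;> simp only [sc2, mkP, one_pow, one_mul, h, div_one, one_smul]

lemma sc2_zero (A : O2 O) : sc2 0 A = Pool.Agent.H59.OP.bp O := by
  have h1 : A.1.a ≠ 0 := A.2
  apply P2.ext <;> simp [sc2, mkP, Pool.Agent.H59.OP.bp, h1]

lemma sc1_mem (s : ℝ) (A : O1 O) : sc1 s A ∈ O1 O := by
  have h := pos1 A s
  have h1 : A.1.b + A.1.c ≠ 0 := A.2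
  change A.1.b / (s ^ 2 * A.1.a + A.1.b + A.1.c) + A.1.c / (s ^ 2 * A.1.a + A.1.b + A.1.c) ≠ 0
  rw [← add_div]
  exact div_ne_zero h1 h.ne'

lemma sc2_mem (s : ℝ) (A : O2 O) : sc2 s A ∈ O2 O := by
  have h := pos2 A s
  have h1 : A.1.a ≠ 0 := A.2
  change A.1.a / (A.1.a + s ^ 2 * (A.1.b + A.1.c)) ≠ 0
  exact div_ne_zero h1 h.ne'

lemma cont_sc1 : Continuous fun p : I × O1 O => sc1 (p.1 : ℝ) p.2 := by
  have hs : Continuous fun p : I × O1 O => (p.1 : ℝ) :=
    continuous_subtype_val.comp continuous_fst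
  have hA : Continuous fun p : I × O1 O => p.2.1 :=
    continuous_subtype_val.comp continuous_snd
  have ha := cont_a.comp hA
  have hb := cont_b.comp hA
  have hc := cont_c.comp hA
  have hx := cont_x.comp hA
  have hy := cont_y.comp hA
  have hz := cont_z.comp hA
  have hN : Continuous fun p : I × O1 O =>
      (p.1 : ℝ) ^ 2 * p.2.1.a + p.2.1.b + p.2.1.c := (((hs.pow 2).mul ha).add hb).add hc
  have h0 : ∀ p : I × O1 O, (p.1 : ℝ) ^ 2 * p.2.1.a + p.2.1.b + p.2.1.c ≠ 0 :=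
    fun p => (pos1 p.2 p.1).ne'
  refine continuous_P2 ?_ ?_ ?_ ?_ ?_ ?_
  · exact ((hs.pow 2).mul ha).div hN h0
  · exact hb.div hN h0
  · exact hc.div hN h0
  · exact (hs.div hN h0).smul hx
  · exact (hs.div hN h0).smul hy
  · exact (continuous_const.div hN h0).smul hz

lemma cont_sc2 : Continuous fun p : I × O2 O => sc2 (p.1 : ℝ) p.2 := by
  have hs : Continuous fun p : I × O2 O => (p.1 : ℝ) :=
    continuous_subtype_val.comp continuous_fst
  have hA : Continuous fun p : I × O2 O => p.2.1 :=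
    continuous_subtype_val.comp continuous_snd
  have ha := cont_a.comp hA
  have hb := cont_b.comp hA
  have hc := cont_c.comp hA
  have hx := cont_x.comp hA
  have hy := cont_y.comp hA
  have hz := cont_z.comp hA
  have hN : Continuous fun p : I × O2 O =>
      p.2.1.a + (p.1 : ℝ) ^ 2 * (p.2.1.b + p.2.1.c) := ha.add ((hs.pow 2).mul (hb.add hc))
  have h0 : ∀ p : I × O2 O, p.2.1.a + (p.1 : ℝ) ^ 2 * (p.2.1.b + p.2.1.c) ≠ 0 :=
    fun p => (pos2 p.2 p.1).ne'
  refine continuous_P2 ?_ ?_ ?_ ?_ ?_ ?_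
  · exact ha.div hN h0
  · exact ((hs.pow 2).mul hb).div hN h0
  · exact ((hs.pow 2).mul hc).div hN h0
  · exact (hs.div hN h0).smul hx
  · exact (hs.div hN h0).smul hy
  · exact ((hs.pow 2).div hN h0).smul hz

/-! ### the first set -/

lemma set1 (hHEQ : T_HEQ) [FiniteDimensional ℝ O] (m : ℕ)
    (h : Van m (Pn (Module.finrank ℝ O + 1))) : Van m (O1 O) := by
  let E : (ℝ × O) ≃L[ℝ] (Fin (Module.finrank ℝ O + 1) → ℝ) :=
    ContinuousLinearEquiv.ofFinrankEq (by simp [add_comm])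
  have hA : Continuous fun A : O1 O => A.1 := continuous_subtype_val
  have hne : ∀ A : O1 O, E (A.1.b - A.1.c, (2 : ℝ) • A.1.z) ≠ 0 := by
    intro A h0
    have h1 : ((A.1.b - A.1.c, (2 : ℝ) • A.1.z) : ℝ × O) = 0 :=
      E.injective (by rw [h0, map_zero])
    have h2 : A.1.b - A.1.c = 0 := congrArg Prod.fst h1
    have h3 : (2 : ℝ) • A.1.z = 0 := congrArg Prod.snd h1
    have h4 : A.1.z = 0 := by
      rcases smul_eq_zero.1 h3 with h | h
      · norm_num at h
      · exact h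
    have h5 := A.1.nz
    rw [h4, norm_zero] at h5
    have h6 : A.1.b + A.1.c ≠ 0 := A.2
    have h7 : A.1.b = A.1.c := by linarith
    rw [h7] at h5 h6
    apply h6
    nlinarith
  let f : C(O1 O, Pn (Module.finrank ℝ O + 1)) :=
    ⟨fun A => ⟨E (A.1.b - A.1.c, (2 : ℝ) • A.1.z), hne A⟩,
      Continuous.subtype_mk (E.continuous.comp
        (((cont_b.comp hA).sub (cont_c.comp hA)).prodMk ((cont_z.comp hA).const_smul 2))) _⟩
  have hpos : ∀ v : Pn (Module.finrank ℝ O + 1),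
      0 < (E.symm v.1).1 ^ 2 + ‖(E.symm v.1).2‖ ^ 2 := by
    intro v
    have h1 : E.symm v.1 ≠ 0 := fun h0 => v.2 (by
      have := congrArg E h0
      rwa [E.apply_symm_apply, map_zero] at this)
    by_contra hcon
    apply h1
    have h2 : (E.symm v.1).1 ^ 2 = 0 := by
      nlinarith [sq_nonneg (E.symm v.1).1, sq_nonneg (‖(E.symm v.1).2‖)]
    have h3 : ‖(E.symm v.1).2‖ ^ 2 = 0 := by
      nlinarith [sq_nonneg (E.symm v.1).1, sq_nonneg (‖(E.symm v.1).2‖)]
    refine Prod.ext (pow_eq_zero_iff (by norm_num) |>.1 h2) ?_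
    exact norm_eq_zero.1 (pow_eq_zero_iff (by norm_num) |>.1 h3)
  let nn : Pn (Module.finrank ℝ O + 1) → ℝ := fun v =>
    Real.sqrt ((E.symm v.1).1 ^ 2 + ‖(E.symm v.1).2‖ ^ 2)
  have hnn : ∀ v, 0 < nn v := fun v => Real.sqrt_pos.2 (hpos v)
  have hnn2 : ∀ v, nn v ^ 2 = (E.symm v.1).1 ^ 2 + ‖(E.symm v.1).2‖ ^ 2 := fun v =>
    Real.sq_sqrt (hpos v).le
  let g0 : Pn (Module.finrank ℝ O + 1) → P2 O := fun v =>
    mkP 0 ((1 + (E.symm v.1).1 / nn v) / 2) ((1 - (E.symm v.1).1 / nn v) / 2) 0 0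
      ((1 / (2 * nn v)) • (E.symm v.1).2) (by ring) (by simp) (by simp)
      (by
        have h1 := (hnn v).ne'
        have h2 : ‖(E.symm v.1).2‖ ^ 2 = nn v ^ 2 - (E.symm v.1).1 ^ 2 := by
          rw [hnn2]
          ring
        rw [norm_smul, mul_pow, h2, Real.norm_eq_abs, sq_abs]
        field_simp
        ring)
      (by simp) (by simp) (by simp)
  have hg0 : ∀ v, g0 v ∈ O1 O := by
    intro v
    change (1 + (E.symm v.1).1 / nn v) / 2 + (1 - (E.symm v.1).1 / nn v) / 2 ≠ 0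
    have h1 : (1 + (E.symm v.1).1 / nn v) / 2 + (1 - (E.symm v.1).1 / nn v) / 2 = 1 := by ring
    rw [h1]
    norm_num
  have hv : Continuous fun v : Pn (Module.finrank ℝ O + 1) => E.symm v.1 :=
    E.symm.continuous.comp continuous_subtype_val
  have hv1 := continuous_fst.comp hv
  have hv2 := continuous_snd.comp hv
  have hnc : Continuous nn := Real.continuous_sqrt.comp ((hv1.pow 2).add (hv2.norm.pow 2))
  have hq := hv1.div hnc fun v => (hnn v).ne'
  have hgc : Continuous g0 := by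
    refine continuous_P2 continuous_const ?_ ?_ continuous_const continuous_const ?_
    · exact (continuous_const.add hq).div_const 2
    · exact (continuous_const.sub hq).div_const 2
    · refine Continuous.smul (continuous_const.div (continuous_const.mul hnc) fun v => ?_) hv2
      exact (mul_pos two_pos (hnn v)).ne'
  let g : C(Pn (Module.finrank ℝ O + 1), O1 O) :=
    ⟨fun v => ⟨g0 v, hg0 v⟩, Continuous.subtype_mk hgc _⟩
  have hh : (g.comp f).Homotopic (ContinuousMap.id (O1 O)) := by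
    refine ⟨⟨⟨fun p => ⟨sc1 (p.1 : ℝ) p.2, sc1_mem _ _⟩, Continuous.subtype_mk cont_sc1 _⟩,
      ?_, ?_⟩⟩
    · intro A
      apply Subtype.ext
      change sc1 ((0 : I) : ℝ) A = g0 ⟨E (A.1.b - A.1.c, (2 : ℝ) • A.1.z), hne A⟩
      have h1 : E.symm (E (A.1.b - A.1.c, (2 : ℝ) • A.1.z)) =
          (A.1.b - A.1.c, (2 : ℝ) • A.1.z) := E.symm_apply_apply _
      have h0 := pos1 A 0
      have h0' : 0 < A.1.b + A.1.c := by nlinarith
      have h2 : nn ⟨E (A.1.b - A.1.c, (2 : ℝ) • A.1.z), hne A⟩ = A.1.b + A.1.c := by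
        have h3 : (A.1.b - A.1.c) ^ 2 + ‖(2 : ℝ) • A.1.z‖ ^ 2 = (A.1.b + A.1.c) ^ 2 := by
          rw [norm_smul, mul_pow, A.1.nz]
          norm_num
          ring
        change Real.sqrt ((E.symm (E (A.1.b - A.1.c, (2 : ℝ) • A.1.z))).1 ^ 2 +
          ‖(E.symm (E (A.1.b - A.1.c, (2 : ℝ) • A.1.z))).2‖ ^ 2) = _
        rw [h1, h3, Real.sqrt_sq h0'.le]
      have h4 : ((0 : I) : ℝ) = 0 := rfl
      apply P2.ext
      · simp [sc1, g0, mkP]
      · simp only [sc1, g0, mkP, h1, h2, h4]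
        field_simp
        ring
      · simp only [sc1, g0, mkP, h1, h2, h4]
        field_simp
        ring
      · simp [sc1, g0, mkP]
      · simp [sc1, g0, mkP]
      · simp only [sc1, g0, mkP, h1, h2, h4]
        rw [smul_smul]
        congr 1
        field_simp
        ring
    · intro A
      apply Subtype.ext
      change sc1 ((1 : I) : ℝ) A = A.1
      exact sc1_one A
  exact (hHEQ _ _ f g hh m).1 h

/-! ### the second set -/

lemma bp_mem : Pool.Agent.H59.OP.bp O ∈ O2 O := by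
  change (1 : ℝ) ≠ 0
  exact one_ne_zero

lemma contr2 : ContractibleSpace (O2 O) := by
  rw [contractible_iff_id_nullhomotopic]
  refine ⟨⟨Pool.Agent.H59.OP.bp O, bp_mem⟩, ContinuousMap.Homotopic.symm
    ⟨⟨⟨fun p => ⟨sc2 (p.1 : ℝ) p.2, sc2_mem _ _⟩, Continuous.subtype_mk cont_sc2 _⟩, ?_, ?_⟩⟩⟩
  · intro A
    apply Subtype.ext
    change sc2 ((0 : I) : ℝ) A = Pool.Agent.H59.OP.bp O
    exact sc2_zero A
  · intro A
    apply Subtype.ext
    change sc2 ((1 : I) : ℝ) A = A.1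
    exact sc2_one A

/-! ### the intersection -/

lemma set3 (hHEQ : T_HEQ) [FiniteDimensional ℝ O] (m : ℕ)
    (h : Van m ↥(O1 O ∩ O2 O)) : Van m (Pn (2 * Module.finrank ℝ O)) := by
  let E : (O × O) ≃L[ℝ] (Fin (2 * Module.finrank ℝ O) → ℝ) :=
    ContinuousLinearEquiv.ofFinrankEq (by simp [two_mul])
  have hA : Continuous fun A : ↥(O1 O ∩ O2 O) => A.1 := continuous_subtype_val
  have ha : ∀ A : ↥(O1 O ∩ O2 O), A.1.a ≠ 0 := fun A => A.2.2
  have hne : ∀ A : ↥(O1 O ∩ O2 O), E ((1 / A.1.a) • A.1.x, (1 / A.1.a) • A.1.y) ≠ 0 := by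
    intro A h0
    have h1 : (((1 / A.1.a) • A.1.x, (1 / A.1.a) • A.1.y) : O × O) = 0 :=
      E.injective (by rw [h0, map_zero])
    have h2 : (1 / A.1.a) • A.1.x = 0 := congrArg Prod.fst h1
    have h3 : (1 / A.1.a) • A.1.y = 0 := congrArg Prod.snd h1
    have h4 : (1 / A.1.a) ≠ 0 := one_div_ne_zero (ha A)
    have hx : A.1.x = 0 := (smul_eq_zero.1 h2).resolve_left h4
    have hy : A.1.y = 0 := (smul_eq_zero.1 h3).resolve_left h4
    have h5 := A.1.nx
    have h6 := A.1.ny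
    rw [hx, norm_zero] at h5
    rw [hy, norm_zero] at h6
    have h7 : A.1.b + A.1.c ≠ 0 := A.2.1
    apply h7
    have h8 : A.1.a * (A.1.b + A.1.c) = 0 := by
      rw [mul_add, ← h5, ← h6]
      norm_num
    exact (mul_eq_zero.1 h8).resolve_left (ha A)
  let g : C(↥(O1 O ∩ O2 O), Pn (2 * Module.finrank ℝ O)) :=
    ⟨fun A => ⟨E ((1 / A.1.a) • A.1.x, (1 / A.1.a) • A.1.y), hne A⟩,
      Continuous.subtype_mk (E.continuous.comp (Continuous.prodMk
        ((continuous_const.div (cont_a.comp hA) ha).smul (cont_x.comp hA))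
        ((continuous_const.div (cont_a.comp hA) ha).smul (cont_y.comp hA)))) _⟩
  have hN : ∀ v : Pn (2 * Module.finrank ℝ O),
      0 < 1 + ‖(E.symm v.1).1‖ ^ 2 + ‖(E.symm v.1).2‖ ^ 2 := fun v => by positivity
  let f0 : Pn (2 * Module.finrank ℝ O) → P2 O := fun v =>
    mkP (1 / (1 + ‖(E.symm v.1).1‖ ^ 2 + ‖(E.symm v.1).2‖ ^ 2))
      (‖(E.symm v.1).1‖ ^ 2 / (1 + ‖(E.symm v.1).1‖ ^ 2 + ‖(E.symm v.1).2‖ ^ 2))
      (‖(E.symm v.1).2‖ ^ 2 / (1 + ‖(E.symm v.1).1‖ ^ 2 + ‖(E.symm v.1).2‖ ^ 2))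
      ((1 / (1 + ‖(E.symm v.1).1‖ ^ 2 + ‖(E.symm v.1).2‖ ^ 2)) • (E.symm v.1).1)
      ((1 / (1 + ‖(E.symm v.1).1‖ ^ 2 + ‖(E.symm v.1).2‖ ^ 2)) • (E.symm v.1).2)
      ((1 / (1 + ‖(E.symm v.1).1‖ ^ 2 + ‖(E.symm v.1).2‖ ^ 2)) •
        (cj (E.symm v.1).1 * (E.symm v.1).2))
      (by
        have h1 := (hN v).ne'
        rw [← add_div, ← add_div, div_self h1])
      (by
        have h1 := (hN v).ne'
        rw [norm_smul, mul_pow, Real.norm_eq_abs, sq_abs]
        field_simp)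
      (by
        have h1 := (hN v).ne'
        rw [norm_smul, mul_pow, Real.norm_eq_abs, sq_abs]
        field_simp)
      (by
        have h1 := (hN v).ne'
        rw [norm_smul, mul_pow, Real.norm_eq_abs, sq_abs, norm_mm, norm_cj]
        field_simp)
      (by
        rw [cj_smul, cj_mm, cj_cj, smul_mm, mm_smul, mm_cj_mm, smul_smul, smul_smul, smul_smul]
        congr 1
        field_simp)
      (by
        rw [smul_mm, mm_smul, mm_cj_mm, smul_smul, smul_smul, smul_smul]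
        congr 1
        field_simp)
      (by
        rw [cj_smul, smul_mm, mm_smul])
  have hf0 : ∀ v, f0 v ∈ O1 O ∩ O2 O := by
    intro v
    have h1 : E.symm v.1 ≠ 0 := fun h0 => v.2 (by
      have := congrArg E h0
      rwa [E.apply_symm_apply, map_zero] at this)
    constructor
    · change ‖(E.symm v.1).1‖ ^ 2 / (1 + ‖(E.symm v.1).1‖ ^ 2 + ‖(E.symm v.1).2‖ ^ 2) +
        ‖(E.symm v.1).2‖ ^ 2 / (1 + ‖(E.symm v.1).1‖ ^ 2 + ‖(E.symm v.1).2‖ ^ 2) ≠ 0
      rw [← add_div]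
      refine div_ne_zero ?_ (hN v).ne'
      intro h0
      apply h1
      have h2 : ‖(E.symm v.1).1‖ ^ 2 = 0 := by
        nlinarith [sq_nonneg (‖(E.symm v.1).1‖), sq_nonneg (‖(E.symm v.1).2‖)]
      have h3 : ‖(E.symm v.1).2‖ ^ 2 = 0 := by
        nlinarith [sq_nonneg (‖(E.symm v.1).1‖), sq_nonneg (‖(E.symm v.1).2‖)]
      exact Prod.ext (norm_eq_zero.1 (pow_eq_zero_iff (by norm_num) |>.1 h2))
        (norm_eq_zero.1 (pow_eq_zero_iff (by norm_num) |>.1 h3))
    · change 1 / (1 + ‖(E.symm v.1).1‖ ^ 2 + ‖(E.symm v.1).2‖ ^ 2) ≠ 0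
      exact one_div_ne_zero (hN v).ne'
  have hv : Continuous fun v : Pn (2 * Module.finrank ℝ O) => E.symm v.1 :=
    E.symm.continuous.comp continuous_subtype_val
  have hv1 := continuous_fst.comp hv
  have hv2 := continuous_snd.comp hv
  have hNc : Continuous fun v : Pn (2 * Module.finrank ℝ O) =>
      1 + ‖(E.symm v.1).1‖ ^ 2 + ‖(E.symm v.1).2‖ ^ 2 :=
    (continuous_const.add (hv1.norm.pow 2)).add (hv2.norm.pow 2)
  have hNi := (continuous_const (y := (1 : ℝ))).div hNc fun v => (hN v).ne'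
  have hfc : Continuous f0 := by
    refine continuous_P2 hNi ?_ ?_ ?_ ?_ ?_
    · exact (hv1.norm.pow 2).div hNc fun v => (hN v).ne'
    · exact (hv2.norm.pow 2).div hNc fun v => (hN v).ne'
    · exact hNi.smul hv1
    · exact hNi.smul hv2
    · exact hNi.smul (continuous_mm (continuous_cj hv1) hv2)
  let f : C(Pn (2 * Module.finrank ℝ O), ↥(O1 O ∩ O2 O)) :=
    ⟨fun v => ⟨f0 v, hf0 v⟩, Continuous.subtype_mk hfc _⟩
  have hgf : g.comp f = ContinuousMap.id _ := by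
    ext1 v
    apply Subtype.ext
    change E ((1 / (1 / (1 + ‖(E.symm v.1).1‖ ^ 2 + ‖(E.symm v.1).2‖ ^ 2))) •
      ((1 / (1 + ‖(E.symm v.1).1‖ ^ 2 + ‖(E.symm v.1).2‖ ^ 2)) • (E.symm v.1).1),
      (1 / (1 / (1 + ‖(E.symm v.1).1‖ ^ 2 + ‖(E.symm v.1).2‖ ^ 2))) •
      ((1 / (1 + ‖(E.symm v.1).1‖ ^ 2 + ‖(E.symm v.1).2‖ ^ 2)) • (E.symm v.1).2)) = v.1
    have h1 : (1 / (1 / (1 + ‖(E.symm v.1).1‖ ^ 2 + ‖(E.symm v.1).2‖ ^ 2))) *
        (1 / (1 + ‖(E.symm v.1).1‖ ^ 2 + ‖(E.symm v.1).2‖ ^ 2)) = 1 := by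
      have := (hN v).ne'
      field_simp
    rw [smul_smul, smul_smul, h1, one_smul, one_smul]
    exact E.apply_symm_apply v.1
  have hh : (g.comp f).Homotopic (ContinuousMap.id _) := by
    rw [hgf]
  exact (hHEQ _ _ f g hh m).1 h

end

end Pool.Agent.H17.JU.Opo

namespace Pool.Agent.H17.JU

open Pool.Agent.H58.JU Pool.Agent.H59 Pool.Agent.H58.FL
open Pool.Agent.H59.OP

theorem pf_OPO (hHEQ : T_HEQ) (hCTR : T_CTR) : T_OPO := by
  intro O _ _ _ _
  refine ⟨Opo.O1 O, Opo.O2 O, ?_, ?_, ?_, fun m => Opo.set1 hHEQ m, fun m => ?_,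
    fun m => Opo.set3 hHEQ m⟩
  · exact isOpen_ne_fun (cont_b.add cont_c) continuous_const
  · exact isOpen_ne_fun cont_a continuous_const
  · refine Set.eq_univ_of_forall fun A => ?_
    by_cases h : A.a = 0
    · left
      change A.b + A.c ≠ 0
      intro h1
      have h2 := A.tr
      linarith
    · right
      exact h
  · have : ContractibleSpace (Opo.O2 O) := Opo.contr2
    exact hCTR _ m

end Pool.Agent.H17.JU
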